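import Pool.Agent.Helper15.LR.Defs

set_option autoImplicit false

open Finset Filter
open scoped Classical Topology

namespace Pool.Agent.Helper33.LR

open Pool.Agent.Helper15.LR

theorem lex_key (p q x y N : ℤ) (hx : |x| ≤ N) (hy : |y| ≤ N) :
    p * (2 * N + 1) + x < q * (2 * N + 1) + y ↔ p < q ∨ (p = q ∧ x < y) := by
  have hN : 0 ≤ N := (abs_nonneg x).trans hx
  obtain ⟨hx1, hx2⟩ := abs_le.1 hx
  obtain ⟨hy1, hy2⟩ := abs_le.1 hy
  rcases lt_trichotomy p q with h | h | h
  · have h1 : (p + 1) * (2 * N + 1) ≤ q * (2 * N + 1) :=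
      mul_le_mul_of_nonneg_right (by omega) (by omega)
    constructor
    · intro _
      exact Or.inl h
    · intro _
      nlinarith
  · subst h
    constructor
    · intro h1
      exact Or.inr ⟨rfl, by linarith⟩
    · rintro (h1 | ⟨_, h1⟩)
      · exact absurd h1 (lt_irrefl _)
      · linarith
  · have h1 : (q + 1) * (2 * N + 1) ≤ p * (2 * N + 1) :=
      mul_le_mul_of_nonneg_right (by omega) (by omega)
    constructor
    · intro h2
      exfalso
      nlinarith
    · rintro (h2 | ⟨h2, _⟩) <;> omega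

/-- A3 from A1 and A2. -/
theorem blockGalvin (hG : Galvin_stmt) (hB : BKW_stmt) : BlockGalvin_stmt := by
  intro V _ F side L blk hside hL
  -- the set of edges
  obtain ⟨E, memE⟩ : ∃ E : Finset (V × V), ∀ e, e ∈ E ↔ side e.1 = true ∧ side e.2 = false ∧
      s(e.1, e.2) ∈ F :=
    ⟨univ.filter (fun e => side e.1 = true ∧ side e.2 = false ∧ s(e.1, e.2) ∈ F), by simp⟩
  let bk : V × V → ℕ := fun e => blk s(e.1, e.2)
  obtain ⟨Ei, memEi⟩ : ∃ Ei : ℕ → Finset (V × V), ∀ i e, e ∈ Ei i ↔ e ∈ E ∧ bk e = i :=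
    ⟨fun i => E.filter (fun e => bk e = i), by simp⟩
  choose r s hr hs hrs using fun i => hB V V (Ei i)
  obtain ⟨N, hN⟩ : ∃ N : ℤ, ∀ e ∈ E, |r (bk e) e| ≤ N ∧ |s (bk e) e| ≤ N := by
    refine ⟨∑ e ∈ E, (|r (bk e) e| + |s (bk e) e|), fun e he => ?_⟩
    have h1 : |r (bk e) e| + |s (bk e) e| ≤ ∑ e ∈ E, (|r (bk e) e| + |s (bk e) e|) :=
      Finset.single_le_sum (f := fun e => |r (bk e) e| + |s (bk e) e|)
        (fun i _ => add_nonneg (abs_nonneg _) (abs_nonneg _)) he
    have h2 := abs_nonneg (r (bk e) e)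
    have h3 := abs_nonneg (s (bk e) e)
    exact ⟨by linarith, by linarith⟩
  let R : V × V → ℤ := fun e => (bk e : ℤ) * (2 * N + 1) + r (bk e) e
  let S : V × V → ℤ := fun e => (-(bk e : ℤ)) * (2 * N + 1) + s (bk e) e
  have hR : ∀ e ∈ E, ∀ e' ∈ E, (R e' < R e ↔ bk e' < bk e ∨
      (bk e' = bk e ∧ r (bk e) e' < r (bk e) e)) := by
    intro e he e' he'
    have h1 := lex_key (bk e') (bk e) (r (bk e') e') (r (bk e) e) N (hN e' he').1 (hN e he).1
    rw [show (R e' < R e ↔ _) from h1]
    constructor
    · rintro (h | ⟨h, h'⟩)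
      · exact Or.inl (by exact_mod_cast h)
      · have h2 : bk e' = bk e := by exact_mod_cast h
        rw [h2] at h'
        exact Or.inr ⟨h2, h'⟩
    · rintro (h | ⟨h, h'⟩)
      · exact Or.inl (by exact_mod_cast h)
      · refine Or.inr ⟨by exact_mod_cast h, ?_⟩
        rw [h]
        exact h'
  have hS : ∀ e ∈ E, ∀ e' ∈ E, (S e' < S e ↔ bk e < bk e' ∨
      (bk e' = bk e ∧ s (bk e) e' < s (bk e) e)) := by
    intro e he e' he'
    have h1 := lex_key (-(bk e' : ℤ)) (-(bk e : ℤ)) (s (bk e') e') (s (bk e) e) N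
      (hN e' he').2 (hN e he).2
    rw [show (S e' < S e ↔ _) from h1]
    constructor
    · rintro (h | ⟨h, h'⟩)
      · exact Or.inl (by omega)
      · have h2 : bk e' = bk e := by omega
        rw [h2] at h'
        exact Or.inr ⟨h2, h'⟩
    · rintro (h | ⟨h, h'⟩)
      · exact Or.inl (by omega)
      · refine Or.inr ⟨by omega, ?_⟩
        rw [h]
        exact h'
  -- injectivity
  have hRinj : ∀ e ∈ E, ∀ e' ∈ E, e.1 = e'.1 → R e = R e' → e = e' := by
    intro e he e' he' h1 h2
    by_contra hne
    have h3 := (hR e he e' he').not.1 (by rw [h2]; exact lt_irrefl _)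
    have h4 := (hR e' he' e he).not.1 (by rw [h2]; exact lt_irrefl _)
    push Not at h3 h4
    have h5 : bk e' = bk e := le_antisymm h4.1 h3.1
    refine hne (hr (bk e) e ((memEi _ _).2 ⟨he, rfl⟩) e' ((memEi _ _).2 ⟨he', h5⟩) h1 ?_)
    have h6 := h4.2 h5.symm
    rw [h5] at h6
    exact le_antisymm (h3.2 h5) h6
  have hSinj : ∀ e ∈ E, ∀ e' ∈ E, e.2 = e'.2 → S e = S e' → e = e' := by
    intro e he e' he' h1 h2
    by_contra hne
    have h3 := (hS e he e' he').not.1 (by rw [h2]; exact lt_irrefl _)
    have h4 := (hS e' he' e he).not.1 (by rw [h2]; exact lt_irrefl _)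
    push Not at h3 h4
    have h5 : bk e' = bk e := le_antisymm h3.1 h4.1
    refine hne (hs (bk e) e ((memEi _ _).2 ⟨he, rfl⟩) e' ((memEi _ _).2 ⟨he', h5⟩) h1 ?_)
    have h6 := h4.2 h5.symm
    rw [h5] at h6
    exact le_antisymm (h3.2 h5) h6
  obtain ⟨f, hf1, hf2⟩ := hG V V E R S (fun e => L s(e.1, e.2)) hRinj hSinj (by
    rintro ⟨a, b⟩ he
    have he' := (memE _).1 he
    have hL' := hL a b he'.2.2 he'.1 he'.2.1
    have hbkw := hrs (bk (a, b)) (a, b) ((memEi _ _).2 ⟨he, rfl⟩)
    -- first endpoint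
    have c1 : (E.filter (fun e' => e'.1 = a ∧ R e' < R (a, b))).card ≤
        ((nb F a).filter (fun u => blk s(a, u) < blk s(a, b))).card +
        ((Ei (bk (a, b))).filter (fun e' => e'.1 = a ∧
          r (bk (a, b)) e' < r (bk (a, b)) (a, b))).card := by
      have hsub : E.filter (fun e' => e'.1 = a ∧ R e' < R (a, b)) ⊆
          E.filter (fun e' => e'.1 = a ∧ bk e' < bk (a, b)) ∪
          (Ei (bk (a, b))).filter (fun e' => e'.1 = a ∧
          r (bk (a, b)) e' < r (bk (a, b)) (a, b)) := by
        intro e' he1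
        rw [mem_filter] at he1
        obtain ⟨he1, he2, he3⟩ := he1
        rw [mem_union, mem_filter, mem_filter, memEi]
        rcases (hR (a, b) he e' he1).1 he3 with h | ⟨h, h'⟩
        · exact Or.inl ⟨he1, he2, h⟩
        · exact Or.inr ⟨⟨he1, h⟩, he2, h'⟩
      refine (card_le_card hsub).trans ((card_union_le _ _).trans ?_)
      refine Nat.add_le_add_right ?_ _
      refine card_le_card_of_injOn (fun e' => e'.2) ?_ ?_
      · rintro ⟨x, y⟩ hx
        rw [mem_coe, mem_filter] at hx
        obtain ⟨hx1, hx2, hx3⟩ := hx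
        simp only at hx2
        subst hx2
        rw [mem_coe, mem_filter]
        refine ⟨?_, hx3⟩
        unfold nb
        rw [mem_filter]
        exact ⟨mem_univ _, ((memE _).1 hx1).2.2⟩
      · rintro ⟨x, y⟩ hx ⟨x', y'⟩ hx' hxy
        rw [mem_coe, mem_filter] at hx hx'
        exact Prod.ext (hx.2.1.trans hx'.2.1.symm) hxy
    have c2 : (E.filter (fun e' => e'.2 = b ∧ S e' < S (a, b))).card ≤
        ((nb F b).filter (fun u => blk s(a, b) < blk s(b, u))).card +
        ((Ei (bk (a, b))).filter (fun e' => e'.2 = b ∧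
          s (bk (a, b)) e' < s (bk (a, b)) (a, b))).card := by
      have hsub : E.filter (fun e' => e'.2 = b ∧ S e' < S (a, b)) ⊆
          E.filter (fun e' => e'.2 = b ∧ bk (a, b) < bk e') ∪
          (Ei (bk (a, b))).filter (fun e' => e'.2 = b ∧
          s (bk (a, b)) e' < s (bk (a, b)) (a, b)) := by
        intro e' he1
        rw [mem_filter] at he1
        obtain ⟨he1, he2, he3⟩ := he1
        rw [mem_union, mem_filter, mem_filter, memEi]
        rcases (hS (a, b) he e' he1).1 he3 with h | ⟨h, h'⟩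
        · exact Or.inl ⟨he1, he2, h⟩
        · exact Or.inr ⟨⟨he1, h⟩, he2, h'⟩
      refine (card_le_card hsub).trans ((card_union_le _ _).trans ?_)
      refine Nat.add_le_add_right ?_ _
      refine card_le_card_of_injOn (fun e' => e'.1) ?_ ?_
      · rintro ⟨x, y⟩ hx
        rw [mem_coe, mem_filter] at hx
        obtain ⟨hx1, hx2, hx3⟩ := hx
        simp only at hx2
        subst hx2
        rw [mem_coe, mem_filter]
        have hsw : s(y, x) = s(x, y) := Sym2.eq_swap
        refine ⟨?_, ?_⟩
        · unfold nb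
          rw [mem_filter]
          refine ⟨mem_univ _, ?_⟩
          rw [hsw]
          exact ((memE _).1 hx1).2.2
        · rw [hsw]
          exact hx3
      · rintro ⟨x, y⟩ hx ⟨x', y'⟩ hx' hxy
        rw [mem_coe, mem_filter] at hx hx'
        exact Prod.ext hxy (hx.2.1.trans hx'.2.1.symm)
    have c3 : ((Ei (bk (a, b))).filter (fun e' => e'.1 = a)).card ≤
        ((nb F a).filter (fun u => blk s(a, u) = blk s(a, b))).card := by
      refine card_le_card_of_injOn (fun e' => e'.2) ?_ ?_
      · rintro ⟨x, y⟩ hx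
        rw [mem_coe, mem_filter, memEi] at hx
        obtain ⟨⟨hx1, hx2⟩, hx3⟩ := hx
        simp only at hx3
        subst hx3
        rw [mem_coe, mem_filter]
        refine ⟨?_, hx2⟩
        unfold nb
        rw [mem_filter]
        exact ⟨mem_univ _, ((memE _).1 hx1).2.2⟩
      · rintro ⟨x, y⟩ hx ⟨x', y'⟩ hx' hxy
        rw [mem_coe, mem_filter] at hx hx'
        exact Prod.ext (hx.2.trans hx'.2.symm) hxy
    have c4 : ((Ei (bk (a, b))).filter (fun e' => e'.2 = b)).card ≤
        ((nb F b).filter (fun u => blk s(b, u) = blk s(a, b))).card := by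
      refine card_le_card_of_injOn (fun e' => e'.1) ?_ ?_
      · rintro ⟨x, y⟩ hx
        rw [mem_coe, mem_filter, memEi] at hx
        obtain ⟨⟨hx1, hx2⟩, hx3⟩ := hx
        simp only at hx3
        subst hx3
        rw [mem_coe, mem_filter]
        have hsw : s(y, x) = s(x, y) := Sym2.eq_swap
        refine ⟨?_, ?_⟩
        · unfold nb
          rw [mem_filter]
          refine ⟨mem_univ _, ?_⟩
          rw [hsw]
          exact ((memE _).1 hx1).2.2
        · rw [hsw]
          exact hx2
      · rintro ⟨x, y⟩ hx ⟨x', y'⟩ hx' hxy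
        rw [mem_coe, mem_filter] at hx hx'
        exact Prod.ext hxy (hx.2.trans hx'.2.symm)
    have c5 := max_le_max c3 c4
    simp only at hbkw
    show (E.filter (fun e' => e'.1 = a ∧ R e' < R (a, b))).card +
      (E.filter (fun e' => e'.2 = b ∧ S e' < S (a, b))).card < (L s(a, b)).card
    omega)
  -- the colouring
  refine ⟨Sym2.lift ⟨fun u v => if side u = true ∧ side v = false then f (u, v)
    else if side v = true ∧ side u = false then f (v, u) else 0, ?_⟩, ?_, ?_⟩
  · intro u v
    by_cases h1 : side u = true ∧ side v = false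
    · have h2 : ¬ (side v = true ∧ side u = false) := by
        rintro ⟨h, _⟩
        rw [h1.2] at h
        exact absurd h (by decide)
      simp only [if_pos h1, if_neg h2]
    · by_cases h2 : side v = true ∧ side u = false
      · simp only [if_neg h1, if_pos h2]
      · simp only [if_neg h1, if_neg h2]
  · intro e
    induction e using Sym2.ind with
    | _ u v =>
      intro he
      have hne := hside u v he
      rw [Sym2.lift_mk]
      cases hu : side u <;> cases hv : side v
      · exact absurd (hu.trans hv.symm) hne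
      · have h3 := hf1 (v, u) ((memE _).2 ⟨hv, hu, by rw [Sym2.eq_swap]; exact he⟩)
        simp only [hu, hv] at h3 ⊢
        rw [Sym2.eq_swap]
        simpa using h3
      · have h3 := hf1 (u, v) ((memE _).2 ⟨hu, hv, he⟩)
        simpa [hu, hv] using h3
      · exact absurd (hu.trans hv.symm) hne
  · intro u v w huv huw hvw
    have h1 := hside u v huv
    have h2 := hside u w huw
    rw [Sym2.lift_mk, Sym2.lift_mk]
    cases hu : side u
    · have hv : side v = true := by
        cases hv : side v
        · exact absurd (hu.trans hv.symm) h1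
        · rfl
      have hw : side w = true := by
        cases hw : side w
        · exact absurd (hu.trans hw.symm) h2
        · rfl
      have h3 := hf2 (v, u) ((memE _).2 ⟨hv, hu, by rw [Sym2.eq_swap]; exact huv⟩)
        (w, u) ((memE _).2 ⟨hw, hu, by rw [Sym2.eq_swap]; exact huw⟩)
        (fun h => hvw (Prod.ext_iff.1 h).1) (Or.inr rfl)
      simpa [hu, hv, hw] using h3
    · have hv : side v = false := by
        cases hv : side v
        · rfl
        · exact absurd (hu.trans hv.symm) h1
      have hw : side w = false := by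
        cases hw : side w
        · rfl
        · exact absurd (hu.trans hw.symm) h2
      have h3 := hf2 (u, v) ((memE _).2 ⟨hu, hv, huv⟩)
        (u, w) ((memE _).2 ⟨hu, hw, huw⟩)
        (fun h => hvw (Prod.ext_iff.1 h).2) (Or.inl rfl)
      simpa [hu, hv, hw] using h3

end Pool.Agent.Helper33.LR
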